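import Pool.Agent.H69.KPO.Bound

set_option linter.unusedVariables false

/-! # MP_9d526a_co, KPO board, module CHG (helper69) -/

open MeasureTheory Metric Set Topology Filter
open scoped RealInnerProductSpace ENNReal

noncomputable section

namespace Pool.Agent.H69.KPO

open Pool.Agent.H52.KP Pool.Agent.H65k

lemma lint_scale {c : ℝ} (hc : 0 < c) {f : ℝ → ℝ≥0∞} (hf : Measurable f) :
    ∫⁻ x, f x = ENNReal.ofReal c⁻¹ * ∫⁻ x, f (x / c) := by
  have h1 : ∫⁻ x, f (x / c) = ∫⁻ x, f (c⁻¹ * x) := by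
    refine lintegral_congr fun x => ?_
    rw [div_eq_inv_mul]
  have h2 : ∫⁻ x, f (c⁻¹ * x) = ENNReal.ofReal c * ∫⁻ x, f x := by
    rw [← lintegral_map (μ := volume) (f := f) (g := fun x => c⁻¹ * x) hf (measurable_const_mul _),
      Real.map_volume_mul_left (inv_ne_zero hc.ne'), lintegral_smul_measure, inv_inv,
      abs_of_pos hc, smul_eq_mul]
  rw [h1, h2, ← mul_assoc, ← ENNReal.ofReal_mul (by positivity), inv_mul_cancel₀ hc.ne',
    ENNReal.ofReal_one, one_mul]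

/-- the two dimensional change of variables. -/
lemma two_dim {G : ℝ → ℝ → ℝ≥0∞} (hG : Measurable (Function.uncurry G)) {g : ℝ → ℝ}
    (hg : Measurable g) {κ c : ℝ} (hκ : 0 < κ) (hc : 0 < c) :
    ∫⁻ z, ∫⁻ σ, G z σ = ENNReal.ofReal (1 / (2 * κ * c ^ 2)) *
      ∫⁻ u, ∫⁻ u', G ((u' - u) / (2 * κ * c)) (g ((u' - u) / (2 * κ * c)) - u / c) := by
  have hG' : Measurable (Function.uncurry fun z u => G z (g z - u / c)) := by
    have : Measurable fun q : ℝ × ℝ => ((q.1, g q.1 - q.2 / c) : ℝ × ℝ) :=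
      measurable_fst.prodMk ((hg.comp measurable_fst).sub (measurable_snd.div_const c))
    exact hG.comp this
  have h1 : ∀ z, ∫⁻ σ, G z σ = ENNReal.ofReal c⁻¹ * ∫⁻ u, G z (g z - u / c) := by
    intro z
    have hGz : Measurable (G z) := hG.of_uncurry_left
    rw [← lintegral_sub_left_eq_self (G z) (g z)]
    exact lint_scale hc (hGz.comp (measurable_const.sub measurable_id))
  have h2 : ∀ u, ∫⁻ z, G z (g z - u / c) = ENNReal.ofReal (2 * κ * c)⁻¹ *
      ∫⁻ u', G ((u' - u) / (2 * κ * c)) (g ((u' - u) / (2 * κ * c)) - u / c) := by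
    intro u
    have hGu : Measurable fun z => G z (g z - u / c) := hG'.of_uncurry_right
    rw [lint_scale (c := 2 * κ * c) (by positivity) hGu,
      ← lintegral_sub_right_eq_self
        (fun s => G (s / (2 * κ * c)) (g (s / (2 * κ * c)) - u / c)) u]
  simp_rw [h1]
  rw [lintegral_const_mul _ hG'.lintegral_prod_right,
    lintegral_lintegral_swap hG'.aemeasurable]
  simp_rw [h2]
  rw [lintegral_const_mul', ← mul_assoc, ← ENNReal.ofReal_mul (by positivity)]
  · congr 2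
    field_simp
  · exact ENNReal.ofReal_ne_top

/-- rearrangement of the factors. -/
lemma mp_rearr (E : Type*) [MeasureSpace E] [SFinite (volume : Measure E)] :
    MeasurePreserving (fun q : (E × ℝ) × (ℝ × ℝ) =>
      ((q.2.2, (q.1.1, (q.2.1, q.1.2))) : ℝ × (E × (ℝ × ℝ)))) := by
  have mp0 := volume_preserving_prodAssoc (α₁ := E) (β₁ := ℝ) (γ₁ := ℝ × ℝ)
  have mp1 := (volume_preserving_prodAssoc (α₁ := ℝ) (β₁ := ℝ) (γ₁ := ℝ)).symm
  have mp2 := (Measure.measurePreserving_swap (μ := (volume : Measure ℝ))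
    (ν := (volume : Measure ℝ))).prod (MeasurePreserving.id (volume : Measure ℝ))
  have mp3 := (MeasurePreserving.id (volume : Measure E)).prod (mp2.comp mp1)
  have mp4 := (volume_preserving_prodAssoc (α₁ := E) (β₁ := ℝ × ℝ) (γ₁ := ℝ)).symm
  have mp5 := Measure.measurePreserving_swap (μ := (volume : Measure (E × (ℝ × ℝ))))
    (ν := (volume : Measure ℝ))
  exact mp5.comp (mp4.comp (mp3.comp mp0))

variable {n K : ℕ}

/-- the integrand of `rq`, cut off at `[a, b]`. -/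
def psi (k : ℕ) (M : ℝ → ℝ) (xl : Fin n → Eu K) (zl : Fin n → ℝ) (P : ℝ) (i j : Fin n) (a b : ℝ)
    (q : ℝ × (Eu K × (ℝ × ℝ))) : ℝ :=
  if a ≤ q.1 ∧ q.1 ≤ b then
    -(deriv (deriv M) (∑ l, phk k (gq xl zl P l q.2.1 q.2.2.1 q.2.2.2 - q.1))) *
    (deriv (phk k) (gq xl zl P i q.2.1 q.2.2.1 q.2.2.2 - q.1) *
      deriv (phk k) (gq xl zl P j q.2.1 q.2.2.1 q.2.2.2 - q.1))
  else 0

lemma psi_nonneg {M : ℝ → ℝ} (hM : GoodM M) (k : ℕ) (xl : Fin n → Eu K) (zl : Fin n → ℝ)
    (P : ℝ) (i j : Fin n) (a b : ℝ) (q : ℝ × (Eu K × (ℝ × ℝ))) :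
    0 ≤ psi k M xl zl P i j a b q := by
  unfold psi
  split_ifs
  · exact mul_nonneg (neg_nonneg.2 (hM.2.1 _))
      (mul_nonneg_of_nonpos_of_nonpos (phk_deriv _ _) (phk_deriv _ _))
  · exact le_refl _

lemma psi_meas {M : ℝ → ℝ} (hM : GoodM M) (k : ℕ) (xl : Fin n → Eu K) (zl : Fin n → ℝ)
    (P : ℝ) (i j : Fin n) (a b : ℝ) : Measurable (psi k M xl zl P i j a b) := by
  have hg : ∀ l, Continuous fun q : ℝ × (Eu K × (ℝ × ℝ)) =>
      gq xl zl P l q.2.1 q.2.2.1 q.2.2.2 - q.1 := by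
    intro l
    have hx : Continuous fun w : ℝ × (Eu K × (ℝ × ℝ)) => w.2.1 :=
      continuous_fst.comp continuous_snd
    have hz : Continuous fun w : ℝ × (Eu K × (ℝ × ℝ)) => w.2.2.1 :=
      continuous_fst.comp (continuous_snd.comp continuous_snd)
    have he : Continuous fun w : ℝ × (Eu K × (ℝ × ℝ)) => w.2.2.2 :=
      continuous_snd.comp (continuous_snd.comp continuous_snd)
    unfold gq
    exact ((((((hx.norm.pow 2).add (hz.pow 2)).add (he.pow 2)).sub
      (continuous_const.mul (hx.inner continuous_const))).sub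
      ((continuous_const.mul hz).mul continuous_const)).add continuous_const).sub continuous_fst
  have h1 : Continuous fun q : ℝ × (Eu K × (ℝ × ℝ)) =>
      ∑ l, phk k (gq xl zl P l q.2.1 q.2.2.1 q.2.2.2 - q.1) :=
    continuous_finsetSum _ fun l _ => (phk_contDiff k).continuous.comp (hg l)
  have h2 : Continuous fun q : ℝ × (Eu K × (ℝ × ℝ)) =>
      -(deriv (deriv M) (∑ l, phk k (gq xl zl P l q.2.1 q.2.2.1 q.2.2.2 - q.1))) :=
    ((d2M_cont hM).comp h1).neg
  have h3 := fun l => (dphk_cont k).comp (hg l)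
  unfold psi
  refine Measurable.ite ?_ (h2.mul ((h3 i).mul (h3 j))).measurable measurable_const
  exact (measurableSet_le measurable_const measurable_fst).inter
    (measurableSet_le measurable_fst measurable_const)

lemma psi_hk {M : ℝ → ℝ} (k : ℕ) (xl : Fin n → Eu K) (zl : Fin n → ℝ)
    (P : ℝ) (i j : Fin n) (hx : xl i = xl j) {κ : ℝ} (hκ : 0 < κ) (hz : zl i - zl j = κ)
    (a b : ℝ) (u u' : ℝ) (p : Eu K × ℝ) :
    psi k M xl zl P i j a b (gq xl zl P i p.1 ((u' - u) / (2 * κ * ((k : ℝ) + 1))) p.2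
      - u / ((k : ℝ) + 1), (p.1, ((u' - u) / (2 * κ * ((k : ℝ) + 1)), p.2)))
      = ((k : ℝ) + 1) ^ 2 * hk k M xl zl P i κ a b ((u, u'), p) := by
  have hc := kp k
  unfold psi hk
  dsimp only
  set z := (u' - u) / (2 * κ * ((k : ℝ) + 1)) with hzdef
  have hgl : ∀ l, gq xl zl P l p.1 z p.2 - (gq xl zl P i p.1 z p.2 - u / ((k : ℝ) + 1))
      = gq xl zl P l p.1 z p.2 - gq xl zl P i p.1 z p.2 + u / ((k : ℝ) + 1) := fun l => by ring
  have hgi : gq xl zl P i p.1 z p.2 - (gq xl zl P i p.1 z p.2 - u / ((k : ℝ) + 1))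
      = u / ((k : ℝ) + 1) := by ring
  have hgj : gq xl zl P j p.1 z p.2 - (gq xl zl P i p.1 z p.2 - u / ((k : ℝ) + 1))
      = u' / ((k : ℝ) + 1) := by
    have h1 : gq xl zl P j p.1 z p.2 - gq xl zl P i p.1 z p.2 = 2 * κ * z := by
      unfold gq
      rw [hx, ← hz]
      ring
    have h2 : 2 * κ * z = (u' - u) / ((k : ℝ) + 1) := by
      rw [hzdef]
      field_simp
    have h3 : gq xl zl P j p.1 z p.2 = gq xl zl P i p.1 z p.2 + (u' - u) / ((k : ℝ) + 1) := by
      linarith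
    rw [h3]
    ring
  rw [hgi, hgj, dphk_scale, dphk_scale]
  simp only [hgl]
  split_ifs
  · ring
  · ring

lemma lint_eq {M : ℝ → ℝ} (hM : GoodM M) (k : ℕ) (xl : Fin n → Eu K) (zl : Fin n → ℝ)
    (P : ℝ) (i j : Fin n) (hx : xl i = xl j) {κ : ℝ} (hκ : 0 < κ) (hz : zl i - zl j = κ)
    (a b : ℝ) :
    ∫⁻ q, ENNReal.ofReal (psi k M xl zl P i j a b q) = ENNReal.ofReal (1 / (2 * κ)) *
      ∫⁻ w, ENNReal.ofReal (hk k M xl zl P i κ a b w) := by
  have hc := kp k
  have hm : Measurable fun q => ENNReal.ofReal (psi k M xl zl P i j a b q) :=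
    (psi_meas hM k xl zl P i j a b).ennreal_ofReal
  have hmp := mp_rearr (Eu K)
  have hme := hm.comp hmp.measurable
  rw [← hmp.lintegral_comp hm]
  have e1 : ∫⁻ r : (Eu K × ℝ) × (ℝ × ℝ),
      ENNReal.ofReal (psi k M xl zl P i j a b (r.2.2, (r.1.1, (r.2.1, r.1.2))))
      = ∫⁻ p : Eu K × ℝ, ∫⁻ y : ℝ × ℝ,
        ENNReal.ofReal (psi k M xl zl P i j a b (y.2, (p.1, (y.1, p.2)))) :=
    lintegral_prod _ hme.aemeasurable
  have e2 : ∀ p : Eu K × ℝ, ∫⁻ y : ℝ × ℝ,
        ENNReal.ofReal (psi k M xl zl P i j a b (y.2, (p.1, (y.1, p.2))))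
      = ENNReal.ofReal (1 / (2 * κ)) *
        ∫⁻ y : ℝ × ℝ, ENNReal.ofReal (hk k M xl zl P i κ a b (y, p)) := by
    intro p
    have hmp2 : Measurable fun y : ℝ × ℝ =>
        ENNReal.ofReal (psi k M xl zl P i j a b (y.2, (p.1, (y.1, p.2)))) :=
      hme.comp (measurable_const.prodMk measurable_id)
    have hg : Measurable fun z : ℝ => gq xl zl P i p.1 z p.2 := by
      unfold gq
      fun_prop
    have hmh : Measurable fun y : ℝ × ℝ => ENNReal.ofReal (hk k M xl zl P i κ a b (y, p)) :=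
      ((hk_meas hM k xl zl P i κ a b).comp (measurable_id.prodMk measurable_const)).ennreal_ofReal
    have e3 : ∫⁻ y : ℝ × ℝ,
        ENNReal.ofReal (psi k M xl zl P i j a b (y.2, (p.1, (y.1, p.2))))
        = ∫⁻ z, ∫⁻ σ, ENNReal.ofReal (psi k M xl zl P i j a b (σ, (p.1, (z, p.2)))) :=
      lintegral_prod _ hmp2.aemeasurable
    have e4 : ∫⁻ y : ℝ × ℝ, ENNReal.ofReal (hk k M xl zl P i κ a b (y, p))
        = ∫⁻ u, ∫⁻ u', ENNReal.ofReal (hk k M xl zl P i κ a b ((u, u'), p)) :=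
      lintegral_prod _ hmh.aemeasurable
    rw [e3, e4, two_dim (G := fun z σ => ENNReal.ofReal (psi k M xl zl P i j a b (σ, (p.1, (z, p.2)))))
      hmp2 hg hκ hc]
    have e5 : ∀ u u', ENNReal.ofReal (psi k M xl zl P i j a b
        (gq xl zl P i p.1 ((u' - u) / (2 * κ * ((k : ℝ) + 1))) p.2
        - u / ((k : ℝ) + 1), (p.1, ((u' - u) / (2 * κ * ((k : ℝ) + 1)), p.2))))
        = ENNReal.ofReal (((k : ℝ) + 1) ^ 2) *
          ENNReal.ofReal (hk k M xl zl P i κ a b ((u, u'), p)) := by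
      intro u u'
      rw [psi_hk k xl zl P i j hx hκ hz a b u u' p, ENNReal.ofReal_mul (by positivity)]
    simp only [e5]
    have e6 : ∀ u, ∫⁻ u', ENNReal.ofReal (((k : ℝ) + 1) ^ 2) *
          ENNReal.ofReal (hk k M xl zl P i κ a b ((u, u'), p))
          = ENNReal.ofReal (((k : ℝ) + 1) ^ 2) *
            ∫⁻ u', ENNReal.ofReal (hk k M xl zl P i κ a b ((u, u'), p)) := fun u =>
      lintegral_const_mul' _ _ ENNReal.ofReal_ne_top
    simp only [e6]
    rw [lintegral_const_mul' _ _ ENNReal.ofReal_ne_top, ← mul_assoc,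
      ← ENNReal.ofReal_mul (by positivity)]
    congr 2
    field_simp
  have e7 : ∫⁻ w, ENNReal.ofReal (hk k M xl zl P i κ a b w)
      = ∫⁻ p : Eu K × ℝ, ∫⁻ y : ℝ × ℝ, ENNReal.ofReal (hk k M xl zl P i κ a b (y, p)) :=
    lintegral_prod_symm _ (hk_meas hM k xl zl P i κ a b).ennreal_ofReal.aemeasurable
  rw [e1, e7]
  simp only [e2]
  exact lintegral_const_mul' _ _ ENNReal.ofReal_ne_top

theorem chg : T_CHG := by
  intro n K M hM k xl zl P i j hx κ hκ hz a b hab
  have hI := hk_integrable hM k xl zl P i κ a b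
  refine ⟨hI, ?_⟩
  have hL := lint_eq hM k xl zl P i j hx hκ hz a b
  have hn : ∀ q, 0 ≤ psi k M xl zl P i j a b q := psi_nonneg hM k xl zl P i j a b
  have hn' : ∀ w, 0 ≤ hk k M xl zl P i κ a b w := hk_nonneg hM k xl zl P i κ a b
  have hfin : ∫⁻ w, ENNReal.ofReal (hk k M xl zl P i κ a b w) < ⊤ :=
    (hasFiniteIntegral_iff_ofReal (ae_of_all _ hn')).1 hI.2
  have hIp : Integrable (psi k M xl zl P i j a b) := by
    refine ⟨(psi_meas hM k xl zl P i j a b).aestronglyMeasurable, ?_⟩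
    rw [hasFiniteIntegral_iff_ofReal (ae_of_all _ hn), hL]
    exact ENNReal.mul_lt_top ENNReal.ofReal_lt_top hfin
  have h1 : ∫ σ in a..b, rq k M xl zl P i j σ = ∫ σ, ∫ y, psi k M xl zl P i j a b (σ, y) := by
    rw [intervalIntegral.integral_of_le hab, ← integral_Icc_eq_integral_Ioc,
      ← integral_indicator measurableSet_Icc]
    refine integral_congr_ae (ae_of_all _ fun σ => ?_)
    dsimp only
    by_cases h : σ ∈ Icc a b
    · rw [indicator_of_mem h]
      unfold rq psi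
      refine integral_congr_ae (ae_of_all _ fun y => ?_)
      have h' : a ≤ σ ∧ σ ≤ b := h
      dsimp only
      rw [if_pos h']
    · rw [indicator_of_notMem h]
      unfold psi
      have h' : ¬ (a ≤ σ ∧ σ ≤ b) := h
      simp only [if_neg h', integral_zero]
  rw [h1]
  have h2 : ∫ σ, ∫ y, psi k M xl zl P i j a b (σ, y) = ∫ q, psi k M xl zl P i j a b q :=
    (integral_prod _ hIp).symm
  rw [h2, integral_eq_lintegral_of_nonneg_ae (ae_of_all _ hn)
    (psi_meas hM k xl zl P i j a b).aestronglyMeasurable, hL, ENNReal.toReal_mul,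
    ENNReal.toReal_ofReal (by positivity),
    integral_eq_lintegral_of_nonneg_ae (ae_of_all _ hn')
    (hk_meas hM k xl zl P i κ a b).aestronglyMeasurable]

end Pool.Agent.H69.KPO
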