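import Pool.Agent.H52.KP.Targets

set_option linter.unusedVariables false

/-! # MP_9d526a_co, KPO board, auxiliary facts for modules CHG and QB (helper69) -/

open MeasureTheory Metric Set Topology Filter
open scoped RealInnerProductSpace

noncomputable section

namespace Pool.Agent.H69.KPO

open Pool.Agent.H52.KP Pool.Agent.H65k

lemma kp (k : ℕ) : (0 : ℝ) < (k : ℝ) + 1 := by positivity

lemma phk_scale (k : ℕ) (u : ℝ) : phk k (u / ((k : ℝ) + 1)) = phk 0 u := by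
  unfold phk
  have := (kp k).ne'
  congr 1
  simp only [Nat.cast_zero]
  field_simp
  ring

lemma dphk_cont (k : ℕ) : Continuous (deriv (phk k)) :=
  (contDiff_deriv_of (phk_contDiff k)).continuous

lemma dphk_scale (k : ℕ) (u : ℝ) :
    deriv (phk k) (u / ((k : ℝ) + 1)) = ((k : ℝ) + 1) * deriv (phk 0) u := by
  have h0 := (kp k).ne'
  have h1 : phk k = fun t => phk 0 (((k : ℝ) + 1) * t) := by
    funext t
    rw [← phk_scale k, mul_div_cancel_left₀ _ h0]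
  have hd : HasDerivAt (phk 0) (deriv (phk 0) u) u :=
    (((phk_contDiff 0).differentiable (by norm_num)) u).hasDerivAt
  have h2 : HasDerivAt (fun t : ℝ => ((k : ℝ) + 1) * t) (((k : ℝ) + 1) * 1) (u / ((k : ℝ) + 1)) :=
    (hasDerivAt_id _).const_mul _
  have h3 : ((k : ℝ) + 1) * (u / ((k : ℝ) + 1)) = u := mul_div_cancel₀ _ h0
  have h4 : HasDerivAt (fun t => phk 0 (((k : ℝ) + 1) * t))
      (deriv (phk 0) u * (((k : ℝ) + 1) * 1)) (u / ((k : ℝ) + 1)) := by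
    refine HasDerivAt.comp (h₂ := phk 0) (u / ((k : ℝ) + 1)) ?_ h2
    rw [h3]
    exact hd
  rw [h1, h4.deriv]
  ring

lemma dphk0_zero {u : ℝ} (h : u ∉ Icc (0 : ℝ) 1) : deriv (phk 0) u = 0 := by
  rw [mem_Icc, not_and_or, not_le, not_le] at h
  rcases h with h | h
  · have h1 : phk 0 =ᶠ[𝓝 u] fun _ => (1 : ℝ) := by
      filter_upwards [gt_mem_nhds h] with s hs
      exact phk_one 0 (le_of_lt hs)
    rw [h1.deriv_eq, deriv_const]
  · exact deriv_zero_of (phk_zero' 0) h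

lemma d2M_cont {M : ℝ → ℝ} (hM : GoodM M) : Continuous (deriv (deriv M)) :=
  (contDiff_deriv_of hM.1).continuous_deriv (le_refl _)

variable {n K : ℕ}

lemma gq_eq (xl : Fin n → Eu K) (zl : Fin n → ℝ) (P : ℝ) (l : Fin n) (x : Eu K) (z η : ℝ) :
    gq xl zl P l x z η = ‖x - xl l‖ ^ 2 + (z - zl l) ^ 2 + η ^ 2 - (‖xl l‖ ^ 2 + zl l ^ 2 - P) := by
  unfold gq
  rw [norm_sub_sq_real]
  ring

lemma gq_cont (xl : Fin n → Eu K) (zl : Fin n → ℝ) (P : ℝ) (l : Fin n) :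
    Continuous (fun y : Eu K × (ℝ × ℝ) => gq xl zl P l y.1 y.2.1 y.2.2) := by
  unfold gq
  fun_prop

lemma hk_nonneg {M : ℝ → ℝ} (hM : GoodM M) (k : ℕ) (xl : Fin n → Eu K) (zl : Fin n → ℝ) (P : ℝ)
    (i : Fin n) (κ a b : ℝ) (w : (ℝ × ℝ) × (Eu K × ℝ)) : 0 ≤ hk k M xl zl P i κ a b w := by
  unfold hk
  refine mul_nonneg (mul_nonneg_of_nonpos_of_nonpos (phk_deriv _ _) (phk_deriv _ _)) ?_
  split_ifs
  · exact neg_nonneg.2 (hM.2.1 _)
  · exact le_refl _

lemma gqw_cont (k : ℕ) (κ : ℝ) (xl : Fin n → Eu K) (zl : Fin n → ℝ) (P : ℝ) (l : Fin n) :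
    Continuous fun w : (ℝ × ℝ) × (Eu K × ℝ) =>
      gq xl zl P l w.2.1 ((w.1.2 - w.1.1) / (2 * κ * ((k : ℝ) + 1))) w.2.2 := by
  have h2 : Continuous fun w : (ℝ × ℝ) × (Eu K × ℝ) =>
      (w.1.2 - w.1.1) / (2 * κ * ((k : ℝ) + 1)) :=
    ((continuous_snd.comp continuous_fst).sub (continuous_fst.comp continuous_fst)).div_const _
  have hx : Continuous fun w : (ℝ × ℝ) × (Eu K × ℝ) => w.2.1 :=
    continuous_fst.comp continuous_snd
  have he : Continuous fun w : (ℝ × ℝ) × (Eu K × ℝ) => w.2.2 :=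
    continuous_snd.comp continuous_snd
  unfold gq
  exact ((((((hx.norm.pow 2).add (h2.pow 2)).add (he.pow 2)).sub
    (continuous_const.mul (hx.inner continuous_const))).sub
    ((continuous_const.mul h2).mul continuous_const)).add continuous_const)

lemma hk_meas {M : ℝ → ℝ} (hM : GoodM M) (k : ℕ) (xl : Fin n → Eu K) (zl : Fin n → ℝ) (P : ℝ)
    (i : Fin n) (κ a b : ℝ) : Measurable (hk k M xl zl P i κ a b) := by
  have hd := (dphk_cont 0).measurable
  have hg := fun l => (gqw_cont k κ xl zl P l).measurable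
  have hu : Measurable fun w : (ℝ × ℝ) × (Eu K × ℝ) => w.1.1 / ((k : ℝ) + 1) :=
    (measurable_fst.comp measurable_fst).div_const _
  have h1 : Measurable fun w : (ℝ × ℝ) × (Eu K × ℝ) => deriv (phk 0) w.1.1 :=
    hd.comp (measurable_fst.comp measurable_fst)
  have h2 : Measurable fun w : (ℝ × ℝ) × (Eu K × ℝ) => deriv (phk 0) w.1.2 :=
    hd.comp (measurable_snd.comp measurable_fst)
  have h3 : Measurable fun w : (ℝ × ℝ) × (Eu K × ℝ) =>
      gq xl zl P i w.2.1 ((w.1.2 - w.1.1) / (2 * κ * ((k : ℝ) + 1))) w.2.2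
          - w.1.1 / ((k : ℝ) + 1) := (hg i).sub hu
  have h4 : Measurable fun w : (ℝ × ℝ) × (Eu K × ℝ) => -(deriv (deriv M) (∑ l, phk k
        (gq xl zl P l w.2.1 ((w.1.2 - w.1.1) / (2 * κ * ((k : ℝ) + 1))) w.2.2
          - gq xl zl P i w.2.1 ((w.1.2 - w.1.1) / (2 * κ * ((k : ℝ) + 1))) w.2.2
          + w.1.1 / ((k : ℝ) + 1)))) := by
    have h5 : Measurable fun w : (ℝ × ℝ) × (Eu K × ℝ) => ∑ l, phk k
        (gq xl zl P l w.2.1 ((w.1.2 - w.1.1) / (2 * κ * ((k : ℝ) + 1))) w.2.2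
          - gq xl zl P i w.2.1 ((w.1.2 - w.1.1) / (2 * κ * ((k : ℝ) + 1))) w.2.2
          + w.1.1 / ((k : ℝ) + 1)) := by
      refine Finset.measurable_sum _ fun l _ => ?_
      exact (phk_contDiff k).continuous.measurable.comp (((hg l).sub (hg i)).add hu)
    exact ((d2M_cont hM).measurable.comp h5).neg
  unfold hk
  exact (h1.mul h2).mul (Measurable.ite ((measurableSet_le measurable_const h3).inter
      (measurableSet_le h3 measurable_const)) h4 measurable_const)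

/-- the constant bounding `hk`. -/
lemma hk_le {M : ℝ → ℝ} (hM : GoodM M) (n : ℕ) : ∃ C : ℝ, 0 ≤ C ∧ ∀ (K : ℕ) (k : ℕ)
    (xl : Fin n → Eu K) (zl : Fin n → ℝ) (P : ℝ) (i : Fin n) (κ a b : ℝ)
    (w : (ℝ × ℝ) × (Eu K × ℝ)), hk k M xl zl P i κ a b w ≤ C := by
  obtain ⟨CM, hCM⟩ := isCompact_Icc.exists_bound_of_continuousOn
    (s := Icc (0 : ℝ) n) (f := deriv (deriv M)) (d2M_cont hM).continuousOn
  obtain ⟨C0, hC0⟩ := isCompact_Icc.exists_bound_of_continuousOn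
    (s := Icc (0 : ℝ) 1) (f := deriv (phk 0)) (dphk_cont 0).continuousOn
  have hC0' : 0 ≤ C0 := (norm_nonneg _).trans (hC0 0 ⟨le_refl _, zero_le_one⟩)
  have hCM' : 0 ≤ CM := (norm_nonneg _).trans (hCM 0 ⟨le_refl _, Nat.cast_nonneg n⟩)
  have hC1 : ∀ u, |deriv (phk 0) u| ≤ C0 := by
    intro u
    by_cases h : u ∈ Icc (0 : ℝ) 1
    · exact hC0 u h
    · rw [dphk0_zero h, abs_zero]
      exact hC0'
  refine ⟨C0 * C0 * CM, by positivity, fun K k xl zl P i κ a b w => ?_⟩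
  unfold hk
  refine (le_abs_self _).trans ?_
  rw [abs_mul, abs_mul]
  refine mul_le_mul (mul_le_mul (hC1 _) (hC1 _) (abs_nonneg _) hC0') ?_ (abs_nonneg _)
    (by positivity)
  split_ifs
  · rw [abs_neg]
    refine hCM _ ⟨Finset.sum_nonneg fun _ _ => phk_nonneg _ _, ?_⟩
    refine (Finset.sum_le_sum fun l _ => phk_le_one _ _).trans ?_
    simp
  · rw [abs_zero]
    exact hCM'

/-- the box containing the support of `hk`. -/
def box (K : ℕ) (c : Eu K) (r : ℝ) : Set ((ℝ × ℝ) × (Eu K × ℝ)) :=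
  (Icc (0 : ℝ) 1 ×ˢ Icc (0 : ℝ) 1) ×ˢ (closedBall c r ×ˢ Icc (-r) r)

lemma box_meas (K : ℕ) (c : Eu K) (r : ℝ) : MeasurableSet (box K c r) :=
  (measurableSet_Icc.prod measurableSet_Icc).prod
    (measurableSet_closedBall.prod measurableSet_Icc)

lemma box_vol (K : ℕ) (c : Eu K) (r : ℝ) : volume (box K c r) = volume (box K 0 r) := by
  unfold box
  rw [Measure.volume_eq_prod, Measure.volume_eq_prod (α := Eu K), Measure.prod_prod,
    Measure.prod_prod, Measure.prod_prod, Measure.prod_prod,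
    Measure.addHaar_closedBall_center (μ := (volume : Measure (Eu K))) c r]

lemma box_fin (K : ℕ) (c : Eu K) (r : ℝ) : volume (box K c r) < ⊤ := by
  unfold box
  have hc : IsCompact ((Icc (0 : ℝ) 1 ×ˢ Icc (0 : ℝ) 1) ×ˢ (closedBall c r ×ˢ Icc (-r) r)) :=
    (isCompact_Icc.prod isCompact_Icc).prod ((isCompact_closedBall c r).prod isCompact_Icc)
  exact hc.measure_lt_top

lemma hk_supp {M : ℝ → ℝ} (k : ℕ) (xl : Fin n → Eu K) (zl : Fin n → ℝ) (P : ℝ)
    (i : Fin n) (κ a b R : ℝ) (hR : ‖xl i‖ ^ 2 + zl i ^ 2 - P ≤ R)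
    (w : (ℝ × ℝ) × (Eu K × ℝ)) (hw : w ∉ box K (xl i) (Real.sqrt (b + 1 + R))) :
    hk k M xl zl P i κ a b w = 0 := by
  by_contra hne
  apply hw
  unfold hk at hne
  rw [← ne_eq, mul_ne_zero_iff, mul_ne_zero_iff] at hne
  obtain ⟨⟨h1, h2⟩, h3⟩ := hne
  have hu : w.1.1 ∈ Icc (0 : ℝ) 1 := by
    by_contra h
    exact h1 (dphk0_zero h)
  have hu' : w.1.2 ∈ Icc (0 : ℝ) 1 := by
    by_contra h
    exact h2 (dphk0_zero h)
  have hcond := (ite_ne_right_iff.1 h3).1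
  rw [gq_eq] at hcond
  have h4 : w.1.1 / ((k : ℝ) + 1) ≤ 1 := by
    rw [div_le_one (kp k)]
    have : (0 : ℝ) ≤ k := Nat.cast_nonneg k
    linarith [hu.2]
  have h5 := hcond.2
  have h6 := sq_nonneg ((w.1.2 - w.1.1) / (2 * κ * ((k : ℝ) + 1)) - zl i)
  have h7 : ‖w.2.1 - xl i‖ ^ 2 ≤ b + 1 + R := by nlinarith [sq_nonneg w.2.2]
  have h8 : w.2.2 ^ 2 ≤ b + 1 + R := by nlinarith [sq_nonneg ‖w.2.1 - xl i‖]
  refine ⟨⟨hu, hu'⟩, ?_, ?_⟩
  · rw [mem_closedBall, dist_eq_norm]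
    exact Real.le_sqrt_of_sq_le h7
  · exact abs_le.1 (Real.abs_le_sqrt h8)

lemma hk_integrable {M : ℝ → ℝ} (hM : GoodM M) (k : ℕ) (xl : Fin n → Eu K) (zl : Fin n → ℝ)
    (P : ℝ) (i : Fin n) (κ a b : ℝ) : Integrable (hk k M xl zl P i κ a b) := by
  obtain ⟨C, hC, hle⟩ := hk_le hM n
  set r := Real.sqrt (b + 1 + (‖xl i‖ ^ 2 + zl i ^ 2 - P)) with hr
  have hI : Integrable ((box K (xl i) r).indicator fun _ => C) :=
    (integrable_indicator_iff (box_meas K (xl i) r)).2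
      (integrableOn_const (box_fin K (xl i) r).ne)
  refine hI.mono' (hk_meas hM k xl zl P i κ a b).aestronglyMeasurable (ae_of_all _ fun w => ?_)
  rw [Real.norm_eq_abs, abs_of_nonneg (hk_nonneg hM k xl zl P i κ a b w)]
  by_cases hw : w ∈ box K (xl i) r
  · rw [indicator_of_mem hw]
    exact hle K k xl zl P i κ a b w
  · rw [indicator_of_notMem hw,
      hk_supp k xl zl P i κ a b _ (le_refl _) w hw]

/-- the uniform bound of the integral of `hk`. -/
lemma hk_int_le {M : ℝ → ℝ} (hM : GoodM M) (n K : ℕ) (R b : ℝ) : ∃ C : ℝ, 0 ≤ C ∧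
    ∀ (k : ℕ) (xl : Fin n → Eu K) (zl : Fin n → ℝ) (P : ℝ) (i : Fin n) (κ a : ℝ),
    ‖xl i‖ ^ 2 + zl i ^ 2 - P ≤ R → ∫ w, hk k M xl zl P i κ a b w ≤ C := by
  obtain ⟨C, hC, hle⟩ := hk_le hM n
  set r := Real.sqrt (b + 1 + R) with hr
  refine ⟨volume.real (box K 0 r) * C, by positivity, fun k xl zl P i κ a hR => ?_⟩
  have hI : Integrable ((box K (xl i) r).indicator fun _ => C) :=
    (integrable_indicator_iff (box_meas K (xl i) r)).2
      (integrableOn_const (box_fin K (xl i) r).ne)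
  have h1 : ∫ w, hk k M xl zl P i κ a b w ≤ ∫ w, (box K (xl i) r).indicator (fun _ => C) w := by
    refine integral_mono (hk_integrable hM k xl zl P i κ a b) hI fun w => ?_
    by_cases hw : w ∈ box K (xl i) r
    · rw [indicator_of_mem hw]
      exact hle K k xl zl P i κ a b w
    · rw [indicator_of_notMem hw,
        hk_supp k xl zl P i κ a b _ hR w hw]
  refine h1.trans (le_of_eq ?_)
  rw [integral_indicator (box_meas K (xl i) r), setIntegral_const, smul_eq_mul]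
  unfold Measure.real
  rw [box_vol]

end Pool.Agent.H69.KPO
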