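import Pool.Agent.H69.KPO.Bound

set_option linter.unusedVariables false

/-! # MP_9d526a_co, KPO board, module QB (helper69) -/

open MeasureTheory Metric Set Topology Filter
open scoped RealInnerProductSpace

noncomputable section

namespace Pool.Agent.H69.KPO

open Pool.Agent.H52.KP Pool.Agent.H65k

theorem qb (hCHG : T_CHG) : T_QB := by
  intro n K M hM R b
  obtain ⟨C, hC, hle⟩ := hk_int_le hM n K R b
  refine ⟨C / 2, by positivity, fun k xl zl P i j hx κ hκ hz hR a hab => ?_⟩
  rw [(hCHG n K M hM k xl zl P i j hx κ hκ hz a b hab).2]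
  refine ⟨mul_nonneg (by positivity) (integral_nonneg fun w => hk_nonneg hM k xl zl P i κ a b w),
    ?_⟩
  have h1 := hle k xl zl P i κ a hR
  calc 1 / (2 * κ) * ∫ w, hk k M xl zl P i κ a b w ≤ 1 / (2 * κ) * C :=
        mul_le_mul_of_nonneg_left h1 (by positivity)
    _ = C / 2 / κ := by field_simp

end Pool.Agent.H69.KPO
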